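import Pool.Agent.Lib.MP_8396f3_al.Final

/-!
# A group with cyclic relation module that is not a one-relator group

`RelMod.RelationModule π hπ` is the relation module `R/[R,R]` of the free presentation
`π : FreeGroup X →* G` with kernel `R`, a module over the group ring `ℤ[G]` on which `π f` acts as
conjugation by `f`.
-/

namespace Pool.Agent.Results.MP_8396f3_al.CyclicRelationModule

open RelMod

universe u v

/-- `G` has cyclic relation module: for some free presentation `π : FreeGroup X →* G` (a surjective
homomorphism from a free group) with kernel `R`, the `ℤ[G]`-module `R/[R,R]` is generated by one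
element. -/
def HasCyclicRelationModule (G : Type v) [Group G] : Prop :=
  ∃ (X : Type) (π : FreeGroup X →* G) (hπ : Function.Surjective π) (m : RelationModule π hπ),
    Submodule.span (MonoidAlgebra ℤ G) {m} = ⊤

/-- `G` is a one-relator group: `G ≅ ⟨X | r⟩` for some set `X` and some word `r`. -/
def IsOneRelatorGroup (G : Type v) [Group G] : Prop :=
  ∃ (X : Type u) (r : FreeGroup X), Nonempty (G ≃* PresentedGroup {r})

/-- There is a group with cyclic relation module which is not a one-relator group. -/
theorem result : ∃ (G : Type) (_ : Group G),
    HasCyclicRelationModule G ∧ ¬ IsOneRelatorGroup.{u} G := by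
  obtain ⟨⟨m, hm⟩, h⟩ := GL23.main.{u}
  refine ⟨HGroup (sig GL23.P) 3, inferInstance, ⟨Fin 2, QuotientGroup.mk' _,
    QuotientGroup.mk'_surjective _, m, hm⟩, ?_⟩
  rintro ⟨X, r, ⟨e⟩⟩
  exact (h X r).false e

end Pool.Agent.Results.MP_8396f3_al.CyclicRelationModule
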